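import Pool.Agent.Helper1.Layered.Core

/-!
# Layered oriented trees: greedy embedding
-/

set_option autoImplicit false

namespace Pool.Helper1.Layered

open Finset
open scoped Classical

variable {V : Type} [Fintype V]

/-- Alive vertices at a level. -/
def Alive (r : ℕ) (S : Finset (ℕ × V × V)) (i : ℕ) (v : V) : Prop :=
  (i < r → ∃ w, (i, v, w) ∈ S) ∧ (∀ j, i = j + 1 → ∃ u, (j, u, v) ∈ S)

theorem Alive.up {k r : ℕ} {S : Finset (ℕ × V × V)} (hS : Stuck k r S)
    {i : ℕ} {u v : V} (h : (i, u, v) ∈ S) : Alive r S (i + 1) v := by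
  refine ⟨fun h1 => (hS.2.2 i v h1).1 ⟨u, h⟩, ?_⟩
  intro j hj
  have : j = i := by omega
  subst this
  exact ⟨u, h⟩

theorem Alive.down {k r : ℕ} {S : Finset (ℕ × V × V)} (hS : Stuck k r S)
    {i : ℕ} (hi : i < r) {u v : V} (h : (i, u, v) ∈ S) : Alive r S i u := by
  refine ⟨fun _ => ⟨v, h⟩, ?_⟩
  intro j hj
  subst hj
  exact (hS.2.2 j u hi).2 ⟨v, h⟩

theorem exists_alive {k r : ℕ} {S : Finset (ℕ × V × V)} (hS : Stuck k r S)
    (hr : ∀ i u v, (i, u, v) ∈ S → i < r) (hne : S.Nonempty) (j : ℕ) (hj : j ≤ r) :
    ∃ v, Alive r S j v ∧ ∃ i u w, (i, u, w) ∈ S ∧ (v = u ∨ v = w) := by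
  obtain ⟨⟨i, u, v⟩, h⟩ := hne
  have hi := hr i u v h
  have h0 : Alive r S i u ∧ ∃ i x w, (i, x, w) ∈ S ∧ (u = x ∨ u = w) :=
    ⟨Alive.down hS hi h, i, u, v, h, Or.inl rfl⟩
  by_cases hij : i ≤ j
  · obtain ⟨d, rfl⟩ := Nat.exists_eq_add_of_le hij
    clear hij
    induction d with
    | zero => exact ⟨u, h0⟩
    | succ d ih =>
      obtain ⟨w, hw, -⟩ := ih (by omega)
      obtain ⟨x, hx⟩ := hw.1 (by omega)
      exact ⟨x, Alive.up hS hx, _, _, _, hx, Or.inr rfl⟩
  · obtain ⟨d, hd⟩ := Nat.exists_eq_add_of_le (not_le.1 hij).le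
    have : ∀ d j, i = j + d → ∃ v, Alive r S j v ∧ ∃ i u w, (i, u, w) ∈ S ∧ (v = u ∨ v = w) := by
      intro d
      induction d with
      | zero => intro j hj; exact ⟨u, by rw [← show i = j by omega]; exact h0⟩
      | succ d ih =>
        intro j hj
        obtain ⟨w, hw, -⟩ := ih (j + 1) (by omega)
        obtain ⟨x, hx⟩ := hw.2 j rfl
        exact ⟨x, Alive.down hS (hr _ _ _ hx) hx, _, _, _, hx, Or.inl rfl⟩
    exact this d j hd

/-- Greedy embedding along a parent function `p` with a decreasing rank `d`. -/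
theorem greedy {W : Type} [Fintype W]
    (root : W) (p : W → W) (d : W → ℕ) (hd : ∀ i, i ≠ root → d (p i) < d i) (t : W → ℕ)
    (ht : ∀ i, i ≠ root → (univ.filter (fun j => j ≠ i ∧ d j ≤ d i)).card ≤ t i)
    (P : W → V → Prop) (Q : W → V → V → Prop) (hroot : ∃ v, P root v)
    (hstep : ∀ i, i ≠ root → ∀ u, P (p i) u → ∃ Z : Finset V, t i ≤ Z.card ∧ u ∉ Z ∧
      ∀ z ∈ Z, P i z ∧ Q i u z) :
    ∃ φ : W → V, Function.Injective φ ∧ ∀ i, i ≠ root → Q i (φ (p i)) (φ i) := by
  obtain ⟨v0, hv0⟩ := hroot
  have hdroot : ∀ n i, d i = n → d root ≤ d i := by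
    intro n
    induction n using Nat.strong_induction_on with
    | _ n ih =>
      intro i hi
      by_cases h : i = root
      · rw [h]
      · have h1 := hd i h
        exact le_trans (ih (d (p i)) (by omega) (p i) rfl) h1.le
  have hmain : ∀ n, 1 ≤ n → n ≤ Fintype.card W → ∃ (X : Finset W) (φ : W → V), X.card = n ∧
      root ∈ X ∧ (∀ i ∈ X, i ≠ root → p i ∈ X) ∧ Set.InjOn φ X ∧
      (∀ i ∈ X, P i (φ i)) ∧
      (∀ i ∈ X, i ≠ root → Q i (φ (p i)) (φ i)) ∧ (∀ j ∈ X, ∀ i ∉ X, d j ≤ d i) := by
    intro n hn
    induction n, hn using Nat.le_induction with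
    | base =>
      intro _
      refine ⟨{root}, fun _ => v0, card_singleton root, mem_singleton_self root, ?_, ?_, ?_, ?_, ?_⟩
      · intro i hi hir; exact absurd (mem_singleton.1 hi) hir
      · intro a ha b hb _
        rw [mem_singleton.1 (mem_coe.1 ha), mem_singleton.1 (mem_coe.1 hb)]
      · intro i hi; rw [mem_singleton.1 hi]; exact hv0
      · intro i hi hir; exact absurd (mem_singleton.1 hi) hir
      · intro j hj i _
        rw [mem_singleton.1 hj]
        exact hdroot _ i rfl
    | succ n hn ih =>
      intro hcard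
      obtain ⟨X, φ, hX, hroot, hcl, hinj, hal, harc, hdX⟩ := ih (by omega)
      have hne' : (univ \ X).Nonempty := by
        rw [← Finset.card_pos, Finset.card_sdiff_of_subset (subset_univ X), card_univ]
        omega
      obtain ⟨i, hi, himin⟩ := Finset.exists_min_image (univ \ X) d hne'
      have hiX : i ∉ X := (mem_sdiff.1 hi).2
      have hir : i ≠ root := fun h => hiX (h ▸ hroot)
      have hpi : p i ∈ X := by
        by_contra h
        have := himin (p i) (mem_sdiff.2 ⟨mem_univ _, h⟩)
        exact absurd (hd i hir) (not_lt.2 this)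
      have hcardimg : (X.image φ).card ≤ t i := by
        refine le_trans card_image_le (le_trans (card_le_card ?_) (ht i hir))
        intro j hj
        refine mem_filter.2 ⟨mem_univ _, ?_, hdX j hj i hiX⟩
        rintro rfl
        exact hiX hj
      have hpimg : φ (p i) ∈ X.image φ := mem_image_of_mem _ hpi
      -- the image of the new vertex
      obtain ⟨Z, hZ1, hZ2, hZ3⟩ := hstep i hir _ (hal _ hpi)
      obtain ⟨z, hz, hz'⟩ : ∃ z ∈ Z, z ∉ (X.image φ).erase (φ (p i)) := by
        by_contra hcon
        push Not at hcon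
        have h2 := card_le_card (fun z hz => hcon z hz : Z ⊆ (X.image φ).erase (φ (p i)))
        rw [card_erase_of_mem hpimg] at h2
        have := card_pos.2 ⟨_, hpimg⟩
        omega
      have hzX : z ∉ X.image φ := by
        intro h2
        refine hz' (mem_erase.2 ⟨?_, h2⟩)
        rintro rfl
        exact hZ2 hz
      have hup : ∀ j ∈ X, Function.update φ i z j = φ j := fun j hj =>
        Function.update_of_ne (fun h => hiX (by rw [← h]; exact hj)) _ _
      have hupi : Function.update φ i z i = z := Function.update_self _ _ _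
      refine ⟨insert i X, Function.update φ i z, ?_, mem_insert_of_mem hroot, ?_, ?_, ?_, ?_, ?_⟩
      · rw [card_insert_of_notMem hiX, hX]
      · intro j hj hjr
        rcases mem_insert.1 hj with rfl | hj
        · exact mem_insert_of_mem hpi
        · exact mem_insert_of_mem (hcl j hj hjr)
      · intro a ha b hb hab
        rcases mem_insert.1 (mem_coe.1 ha) with h1 | h1
        · rcases mem_insert.1 (mem_coe.1 hb) with h2 | h2
          · rw [h1, h2]
          · rw [h1, hupi, hup b h2] at hab
            exact absurd (mem_image.2 ⟨b, h2, hab.symm⟩) hzX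
        · rcases mem_insert.1 (mem_coe.1 hb) with h2 | h2
          · rw [h2, hupi, hup a h1] at hab
            exact absurd (mem_image.2 ⟨a, h1, hab⟩) hzX
          · rw [hup a h1, hup b h2] at hab
            exact hinj h1 h2 hab
      · intro j hj
        rcases mem_insert.1 hj with h1 | h1
        · rw [h1, hupi]; exact (hZ3 z hz).1
        · rw [hup j h1]; exact hal j h1
      · intro j hj hjr
        rcases mem_insert.1 hj with h1 | h1
        · rw [h1, hupi, hup _ hpi]; exact (hZ3 z hz).2
        · rw [hup j h1, hup _ (hcl j h1 hjr)]; exact harc j h1 hjr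
      · intro j hj l hl
        have hlX : l ∉ X := fun h => hl (mem_insert_of_mem h)
        rcases mem_insert.1 hj with h1 | h1
        · rw [h1]; exact himin l (mem_sdiff.2 ⟨mem_univ _, hlX⟩)
        · exact hdX j h1 l hlX
  have hpos : 1 ≤ Fintype.card W := Fintype.card_pos_iff.2 ⟨root⟩
  obtain ⟨X, φ, hX, hroot, hcl, hinj, hal, harc, -⟩ := hmain _ hpos le_rfl
  have hXu : X = univ := Finset.eq_univ_of_card X hX
  subst hXu
  exact ⟨φ, fun a b hab => hinj (mem_coe.2 (mem_univ a)) (mem_coe.2 (mem_univ b)) hab,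
    fun i hi => harc i (mem_univ i) hi⟩

/-- The nested vertex sets: every vertex of `lev (j+1)` has `t j` out- and `t j` in-neighbours
in `lev j`. -/
noncomputable def lev (R : V → V → Prop) (t : ℕ → ℕ) : ℕ → Finset V
  | 0 => univ
  | j + 1 => (lev R t j).filter (fun v => t j ≤ ((lev R t j).filter (fun w => R v w)).card ∧
      t j ≤ ((lev R t j).filter (fun u => R u v)).card)

/-- Colouring the complement of the levels. -/
theorem col_lev (R : V → V → Prop) (hirr : ∀ v, ¬ R v v) (t : ℕ → ℕ) :
    ∀ ρ n, (∃ c : V → ℕ, (∀ v ∈ lev R t ρ, c v < n) ∧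
      ∀ u ∈ lev R t ρ, ∀ v ∈ lev R t ρ, R u v → c u ≠ c v) →
    ∃ c : V → ℕ, (∀ v, c v < n + ∑ j ∈ range ρ, (4 * t j - 2)) ∧ ∀ u v, R u v → c u ≠ c v := by
  intro ρ
  induction ρ with
  | zero =>
    rintro n ⟨c, h1, h2⟩
    refine ⟨c, fun v => ?_, fun u v => h2 u (mem_univ u) v (mem_univ v)⟩
    have := h1 v (mem_univ v)
    rw [range_zero, sum_empty]
    omega
  | succ ρ ih =>
    rintro n ⟨c, h1, h2⟩
    obtain ⟨A, hA⟩ : ∃ A, A = lev R t ρ := ⟨_, rfl⟩
    obtain ⟨k, hk⟩ : ∃ k, k = t ρ := ⟨_, rfl⟩
    have hlev : ∀ v, v ∈ lev R t (ρ + 1) ↔ v ∈ A ∧ k ≤ (A.filter (fun w => R v w)).card ∧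
        k ≤ (A.filter (fun u => R u v)).card := by
      intro v; rw [hA, hk]; simp only [lev, mem_filter]
    -- low out-degree
    obtain ⟨c1, hc1, hc1'⟩ := col_of_cover R
      (fun v => if (A.filter (fun w => R v w)).card < k then A.filter (fun w => R v w) else ∅)
      (k - 1) (by
        intro v
        split_ifs with h
        · omega
        · simp) hirr (A.filter (fun v => (A.filter (fun w => R v w)).card < k)) (by
        intro u hu v hv huv
        left
        rw [if_pos (mem_filter.1 hu).2]
        exact mem_filter.2 ⟨(mem_filter.1 hv).1, huv⟩)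
    obtain ⟨c2, hc2, hc2'⟩ := col_of_cover R
      (fun v => if (A.filter (fun w => R w v)).card < k then A.filter (fun w => R w v) else ∅)
      (k - 1) (by
        intro v
        split_ifs with h
        · omega
        · simp) hirr (A.filter (fun v => (A.filter (fun w => R w v)).card < k)) (by
        intro u hu v hv huv
        right
        rw [if_pos (mem_filter.1 hv).2]
        exact mem_filter.2 ⟨(mem_filter.1 hu).1, huv⟩)
    have hkey : ∃ c' : V → ℕ, (∀ v ∈ lev R t ρ, c' v < n + (4 * k - 2)) ∧
        ∀ u ∈ lev R t ρ, ∀ v ∈ lev R t ρ, R u v → c' u ≠ c' v := by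
      rw [← hA]
      refine ⟨fun v => if v ∈ lev R t (ρ + 1) then c v else
        if (A.filter (fun w => R v w)).card < k then n + c1 v else n + (2 * k - 1) + c2 v, ?_, ?_⟩
      · intro v hv
        simp only
        split_ifs with h3 h4
        · have := h1 v h3; omega
        · have := hc1 v; omega
        · have h5 : (A.filter (fun w => R w v)).card < k := by
            by_contra h5
            exact h3 ((hlev v).2 ⟨hv, not_lt.1 h4, not_lt.1 h5⟩)
          have := hc2 v; omega
      · intro u hu v hv huv
        have hcl : ∀ x ∈ A, x ∉ lev R t (ρ + 1) → ¬ (A.filter (fun w => R x w)).card < k →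
            (A.filter (fun w => R w x)).card < k := by
          intro x hx hx' h3
          by_contra h4
          exact hx' ((hlev x).2 ⟨hx, not_lt.1 h3, not_lt.1 h4⟩)
        by_cases hu1 : u ∈ lev R t (ρ + 1)
        · have e1 := h1 u hu1
          by_cases hv1 : v ∈ lev R t (ρ + 1)
          · simp only [if_pos hu1, if_pos hv1]
            exact h2 u hu1 v hv1 huv
          · by_cases hv2 : (A.filter (fun w => R v w)).card < k
            · simp only [if_pos hu1, if_neg hv1, if_pos hv2]; omega
            · simp only [if_pos hu1, if_neg hv1, if_neg hv2]; omega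
        · by_cases hv1 : v ∈ lev R t (ρ + 1)
          · have e1 := h1 v hv1
            by_cases hu2 : (A.filter (fun w => R u w)).card < k
            · simp only [if_neg hu1, if_pos hu2, if_pos hv1]; omega
            · simp only [if_neg hu1, if_neg hu2, if_pos hv1]; omega
          · by_cases hu2 : (A.filter (fun w => R u w)).card < k
            · by_cases hv2 : (A.filter (fun w => R v w)).card < k
              · simp only [if_neg hu1, if_pos hu2, if_neg hv1, if_pos hv2]
                have := hc1' u (mem_filter.2 ⟨hu, hu2⟩) v (mem_filter.2 ⟨hv, hv2⟩) huv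
                omega
              · simp only [if_neg hu1, if_pos hu2, if_neg hv1, if_neg hv2]
                have := hc1 u
                omega
            · by_cases hv2 : (A.filter (fun w => R v w)).card < k
              · simp only [if_neg hu1, if_neg hu2, if_neg hv1, if_pos hv2]
                have := hc1 v
                omega
              · simp only [if_neg hu1, if_neg hu2, if_neg hv1, if_neg hv2]
                have := hc2' u (mem_filter.2 ⟨hu, hcl u hu hu1 hu2⟩) v
                  (mem_filter.2 ⟨hv, hcl v hv hv1 hv2⟩) huv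
                omega
    -- apply the induction with the larger number of colours
    obtain ⟨c', h3, h4⟩ := ih (n + (4 * k - 2)) hkey
    refine ⟨c', fun v => ?_, h4⟩
    have h5 := h3 v
    rw [sum_range_succ, ← hk]
    omega

end Pool.Helper1.Layered
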