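import Mathlib

/-!
# Parent functions in a finite tree relative to a connected vertex set
-/

set_option autoImplicit false

namespace Pool.Helper1.Layered

open Finset
open scoped Classical

/-- A parent function with decreasing rank covers all edges of a tree. -/
theorem cover_of_parents {k : ℕ} (G : SimpleGraph (Fin (k + 1))) (hG : G.IsTree)
    (r : Fin (k + 1)) (p : Fin (k + 1) → Fin (k + 1)) (d : Fin (k + 1) → ℕ)
    (hp : ∀ i, i ≠ r → d (p i) < d i ∧ G.Adj i (p i)) :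
    ∀ a b, G.Adj a b → ∃ i, i ≠ r ∧ ((i = a ∧ p i = b) ∨ (i = b ∧ p i = a)) := by
  have hinj : ∀ i j, i ≠ r → j ≠ r → s(i, p i) = s(j, p j) → i = j := by
    intro i j hi hj h
    rcases Sym2.eq_iff.1 h with h1 | h1
    · exact h1.1
    · exfalso
      have e1 := (hp i hi).1
      have e2 := (hp j hj).1
      rw [h1.2] at e1
      rw [← h1.1] at e2
      omega
  intro a b hab
  have himg : (univ.erase r).image (fun i => s(i, p i)) = G.edgeFinset := by
    apply Finset.eq_of_subset_of_card_le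
    · intro e he
      obtain ⟨i, hi, rfl⟩ := mem_image.1 he
      rw [SimpleGraph.mem_edgeFinset]
      exact (hp i (ne_of_mem_erase hi)).2
    · rw [Finset.card_image_of_injOn, card_erase_of_mem (mem_univ r), card_univ]
      · have := hG.card_edgeFinset
        omega
      · intro i hi j hj h
        exact hinj i j (ne_of_mem_erase (mem_coe.1 hi)) (ne_of_mem_erase (mem_coe.1 hj)) h
  have hmem : s(a, b) ∈ (univ.erase r).image (fun i => s(i, p i)) := by
    rw [himg, SimpleGraph.mem_edgeFinset]; exact hab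
  obtain ⟨i, hi, hi'⟩ := mem_image.1 hmem
  refine ⟨i, ne_of_mem_erase hi, ?_⟩
  rcases Sym2.eq_iff.1 hi' with h1 | h1
  · exact Or.inl h1
  · exact Or.inr h1

/-- Parents relative to a connected vertex set `X`: inside `X` the parents are in `X`, outside
`X` the parents are closer to `X`; `e` is (bounded by) the distance from `X`. -/
theorem exists_parents_rel {k : ℕ} (G : SimpleGraph (Fin (k + 1))) (hG : G.IsTree)
    (X : Set (Fin (k + 1))) (hX : (G.induce X).Connected) (ρ : ℕ)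
    (hρ : ∀ w, ∃ x ∈ X, G.dist w x ≤ ρ) :
    ∃ (r : Fin (k + 1)) (p : Fin (k + 1) → Fin (k + 1)) (d e : Fin (k + 1) → ℕ),
      r ∈ X ∧ (∀ i, i ≠ r → d (p i) < d i ∧ G.Adj i (p i)) ∧
      (∀ i ∈ X, i ≠ r → p i ∈ X) ∧ (∀ i ∈ X, e i = 0) ∧ (∀ i, e i ≤ ρ) ∧
      (∀ i, i ∉ X → e i = e (p i) + 1) ∧ (∀ i, ∃ x ∈ X, G.dist i x = e i) ∧
      (∀ i j, d j ≤ d i → e j ≤ e i) := by
  obtain ⟨⟨r, hr⟩⟩ := hX.nonempty
  -- distance from X
  have hex : ∀ w, ∃ n, ∃ x ∈ X, G.dist w x = n := fun w => ⟨_, r, hr, rfl⟩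
  obtain ⟨e, he⟩ : ∃ e : Fin (k + 1) → ℕ, ∀ w, (∃ x ∈ X, G.dist w x = e w) ∧
      ∀ x ∈ X, e w ≤ G.dist w x :=
    ⟨fun w => Nat.find (hex w), fun w => ⟨Nat.find_spec (hex w),
      fun x hx => Nat.find_min' (hex w) ⟨x, hx, rfl⟩⟩⟩
  have heX : ∀ i ∈ X, e i = 0 := by
    intro i hi
    have := (he i).2 i hi
    rw [SimpleGraph.dist_self] at this
    omega
  have hstep1 : ∀ i, i ∉ X → ∃ j, G.Adj i j ∧ e i = e j + 1 := by
    intro i hi
    obtain ⟨⟨x, hx, hxe⟩, hmin⟩ := he i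
    obtain ⟨w, hw⟩ := (hG.1.preconnected i x).exists_walk_length_eq_dist
    cases w with
    | nil => exact absurd hx hi
    | @cons _ j _ h q =>
      refine ⟨j, h, ?_⟩
      rw [SimpleGraph.Walk.length_cons] at hw
      have h1 : G.dist j x ≤ q.length := SimpleGraph.dist_le q
      have h2 := (he j).2 x hx
      obtain ⟨y, hy, hye⟩ := (he j).1
      have h3 := hmin y hy
      have h4 : G.dist i y ≤ G.dist j y + 1 := by
        obtain ⟨w', hw'⟩ := (hG.1.preconnected j y).exists_walk_length_eq_dist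
        have := SimpleGraph.dist_le (SimpleGraph.Walk.cons h w')
        rw [SimpleGraph.Walk.length_cons] at this
        omega
      omega
  have hstep2 : ∀ i, ∀ hi : i ∈ X, i ≠ r → ∃ j, ∃ hj : j ∈ X, G.Adj i j ∧
      (G.induce X).dist ⟨j, hj⟩ ⟨r, hr⟩ < (G.induce X).dist ⟨i, hi⟩ ⟨r, hr⟩ := by
    intro i hi hir
    obtain ⟨w, hw⟩ := (hX.preconnected ⟨i, hi⟩ ⟨r, hr⟩).exists_walk_length_eq_dist
    cases w with
    | nil => exact absurd rfl hir
    | @cons _ j _ h q =>
      refine ⟨j.1, j.2, h, ?_⟩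
      have := SimpleGraph.dist_le q
      rw [SimpleGraph.Walk.length_cons] at hw
      have h5 : (⟨j.1, j.2⟩ : X) = j := rfl
      rw [h5]
      omega
  -- combine
  obtain ⟨M, hM⟩ : ∃ M, ∀ i, ∀ hi : i ∈ X, (G.induce X).dist ⟨i, hi⟩ ⟨r, hr⟩ ≤ M := by
    refine ⟨∑ y : X, (G.induce X).dist y ⟨r, hr⟩, fun i hi => ?_⟩
    exact Finset.single_le_sum (f := fun y : X => (G.induce X).dist y ⟨r, hr⟩)
      (fun _ _ => Nat.zero_le _) (mem_univ (⟨i, hi⟩ : X))
  obtain ⟨d, hd⟩ : ∃ d : Fin (k + 1) → ℕ, d = fun i =>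
      if hi : i ∈ X then (G.induce X).dist ⟨i, hi⟩ ⟨r, hr⟩ else M + e i := ⟨_, rfl⟩
  have hall : ∀ i, i ≠ r → ∃ j, (d j < d i ∧ G.Adj i j) ∧ (i ∈ X → j ∈ X) ∧
      (i ∉ X → e i = e j + 1) := by
    intro i hir
    by_cases hi : i ∈ X
    · obtain ⟨j, hj, h1, h2⟩ := hstep2 i hi hir
      refine ⟨j, ⟨?_, h1⟩, fun _ => hj, fun h => absurd hi h⟩
      rw [hd]
      simp only [dif_pos hi, dif_pos hj]
      exact h2
    · obtain ⟨j, h1, h2⟩ := hstep1 i hi
      refine ⟨j, ⟨?_, h1⟩, fun h => absurd h hi, fun _ => h2⟩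
      rw [hd]
      by_cases hj : j ∈ X
      · simp only [dif_neg hi, dif_pos hj]
        have := hM j hj
        omega
      · simp only [dif_neg hi, dif_neg hj]
        omega
  choose! p hp1 hp2 hp3 using hall
  refine ⟨r, p, d, e, hr, hp1, fun i hi hir => hp2 i hir hi, heX, ?_, ?_, fun i => (he i).1, ?_⟩
  · intro i
    obtain ⟨x, hx, hxρ⟩ := hρ i
    exact le_trans ((he i).2 x hx) hxρ
  · intro i hi
    exact hp3 i (fun h => hi (h ▸ hr)) hi
  · intro i j hij
    rw [hd] at hij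
    by_cases hj : j ∈ X
    · rw [heX j hj]; exact Nat.zero_le _
    · by_cases hi : i ∈ X
      · simp only [dif_pos hi, dif_neg hj] at hij
        have := hM i hi
        omega
      · simp only [dif_neg hi, dif_neg hj] at hij
        omega

end Pool.Helper1.Layered
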