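import Mathlib

/-!
# Layered oriented trees in digraphs of large chromatic number: core lemmas
-/

set_option autoImplicit false

namespace Pool.Helper1.Layered

open Finset
open scoped Classical

variable {V : Type} [Fintype V]

/-- A system of arcs `(i, u, v)` (arc from level `i` to level `i + 1`) is stuck. -/
def Stuck (k r : ℕ) (S : Finset (ℕ × V × V)) : Prop :=
  (∀ i u, (∃ v, (i, u, v) ∈ S) → k ≤ (univ.filter (fun v => (i, u, v) ∈ S)).card) ∧
  (∀ i v, (∃ u, (i, u, v) ∈ S) → k ≤ (univ.filter (fun u => (i, u, v) ∈ S)).card) ∧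
  (∀ i v, i + 1 < r → ((∃ u, (i, u, v) ∈ S) ↔ ∃ w, (i + 1, v, w) ∈ S))

/-- Elimination of a system of arcs without stuck subsystem. -/
theorem elim (k r : ℕ) :
    ∀ B : Finset (ℕ × V × V), (∀ S ⊆ B, S.Nonempty → ¬ Stuck k r S) →
      ∃ (O I : ℕ → V → Finset V) (ρ : ℕ → V → Bool),
        (∀ i v, (O i v).card ≤ k - 1) ∧ (∀ i v, (I i v).card ≤ k - 1) ∧
        ∀ i u v, (i, u, v) ∈ B → v ∈ O i u ∨ u ∈ I i v ∨
          (i + 1 < r ∧ ρ (i + 1) v = true) ∨ (1 ≤ i ∧ i < r ∧ ρ i u = false) := by
  intro B
  induction B using Finset.strongInduction with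
  | H B ih =>
    intro hB
    rcases B.eq_empty_or_nonempty with rfl | hne
    · exact ⟨fun _ _ => ∅, fun _ _ => ∅, fun _ _ => true, by simp, by simp, by simp⟩
    have hns := hB B (Subset.refl B) hne
    -- the induction hypothesis for a smaller system
    have hstep : ∀ P : ℕ × V × V → Prop, (∃ x ∈ B, P x) →
        ∃ (O I : ℕ → V → Finset V) (ρ : ℕ → V → Bool),
        (∀ i v, (O i v).card ≤ k - 1) ∧ (∀ i v, (I i v).card ≤ k - 1) ∧
        ∀ i u v, (i, u, v) ∈ B → ¬ P (i, u, v) → v ∈ O i u ∨ u ∈ I i v ∨
          (i + 1 < r ∧ ρ (i + 1) v = true) ∨ (1 ≤ i ∧ i < r ∧ ρ i u = false) := by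
      intro P hP
      obtain ⟨x, hx, hPx⟩ := hP
      have hss : B.filter (fun y => ¬ P y) ⊂ B := by
        rw [Finset.filter_ssubset]
        exact ⟨x, hx, fun h => h hPx⟩
      obtain ⟨O, I, ρ, h1, h2, h3⟩ := ih _ hss
        (fun S hS => hB S (hS.trans (filter_subset _ _)))
      exact ⟨O, I, ρ, h1, h2, fun i u v h h' => h3 i u v (mem_filter.2 ⟨h, h'⟩)⟩
    by_cases ha : ∀ i u, (∃ v, (i, u, v) ∈ B) → k ≤ (univ.filter (fun v => (i, u, v) ∈ B)).card
    swap
    · -- peel the out-arcs
      push Not at ha
      obtain ⟨j, w, ⟨z, hz⟩, hlt⟩ := ha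
      obtain ⟨O, I, ρ, h1, h2, h3⟩ := hstep (fun x => x.1 = j ∧ x.2.1 = w)
        ⟨(j, w, z), hz, rfl, rfl⟩
      refine ⟨fun i u => if i = j ∧ u = w then univ.filter (fun v => (j, w, v) ∈ B) else O i u,
        I, ρ, ?_, h2, ?_⟩
      · intro i v
        by_cases hc : i = j ∧ v = w
        · simp only [if_pos hc]; omega
        · simp only [if_neg hc]; exact h1 i v
      · intro i u v h
        by_cases hc : i = j ∧ u = w
        · left
          simp only [if_pos hc, mem_filter, mem_univ, true_and]
          rw [← hc.1, ← hc.2]; exact h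
        · simp only [if_neg hc]
          exact h3 i u v h hc
    by_cases hb : ∀ i v, (∃ u, (i, u, v) ∈ B) → k ≤ (univ.filter (fun u => (i, u, v) ∈ B)).card
    swap
    · -- peel the in-arcs
      push Not at hb
      obtain ⟨j, w, ⟨z, hz⟩, hlt⟩ := hb
      obtain ⟨O, I, ρ, h1, h2, h3⟩ := hstep (fun x => x.1 = j ∧ x.2.2 = w)
        ⟨(j, z, w), hz, rfl, rfl⟩
      refine ⟨O, fun i u => if i = j ∧ u = w then univ.filter (fun v => (j, v, w) ∈ B) else I i u,
        ρ, h1, ?_, ?_⟩
      · intro i v
        by_cases hc : i = j ∧ v = w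
        · simp only [if_pos hc]; omega
        · simp only [if_neg hc]; exact h2 i v
      · intro i u v h
        by_cases hc : i = j ∧ v = w
        · right; left
          simp only [if_pos hc, mem_filter, mem_univ, true_and]
          rw [← hc.1, ← hc.2]; exact h
        · simp only [if_neg hc]
          exact h3 i u v h hc
    -- the third condition fails
    have hc : ¬ ∀ i v, i + 1 < r → ((∃ u, (i, u, v) ∈ B) ↔ ∃ w, (i + 1, v, w) ∈ B) :=
      fun h => hns ⟨ha, hb, h⟩
    push Not at hc
    obtain ⟨j, w, hj, hcase⟩ := hc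
    rcases hcase with ⟨⟨z, hz⟩, hno⟩ | ⟨hno, ⟨z, hz⟩⟩
    · -- in-arcs at level j but no out-arcs at level j + 1
      obtain ⟨O, I, ρ, h1, h2, h3⟩ := hstep (fun x => x.1 = j ∧ x.2.2 = w)
        ⟨(j, z, w), hz, rfl, rfl⟩
      refine ⟨O, I, fun i u => if i = j + 1 ∧ u = w then true else ρ i u, h1, h2, ?_⟩
      intro i u v h
      by_cases hc : i = j ∧ v = w
      · right; right; left
        refine ⟨by rw [hc.1]; exact hj, ?_⟩
        simp only [hc.1, hc.2, and_self, if_true]
      · rcases h3 i u v h hc with h4 | h4 | h4 | h4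
        · exact Or.inl h4
        · exact Or.inr (Or.inl h4)
        · right; right; left
          refine ⟨h4.1, ?_⟩
          have : ¬ (i + 1 = j + 1 ∧ v = w) := fun h5 => hc ⟨by omega, h5.2⟩
          simp only [if_neg this]; exact h4.2
        · right; right; right
          refine ⟨h4.1, h4.2.1, ?_⟩
          have : ¬ (i = j + 1 ∧ u = w) := by
            rintro ⟨rfl, rfl⟩
            exact hno v h
          simp only [if_neg this]; exact h4.2.2
    · -- out-arcs at level j + 1 but no in-arcs at level j
      obtain ⟨O, I, ρ, h1, h2, h3⟩ := hstep (fun x => x.1 = j + 1 ∧ x.2.1 = w)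
        ⟨(j + 1, w, z), hz, rfl, rfl⟩
      refine ⟨O, I, fun i u => if i = j + 1 ∧ u = w then false else ρ i u, h1, h2, ?_⟩
      intro i u v h
      by_cases hc : i = j + 1 ∧ u = w
      · right; right; right
        refine ⟨by omega, by omega, ?_⟩
        simp only [if_pos hc]
      · rcases h3 i u v h hc with h4 | h4 | h4 | h4
        · exact Or.inl h4
        · exact Or.inr (Or.inl h4)
        · right; right; left
          refine ⟨h4.1, ?_⟩
          have : ¬ (i + 1 = j + 1 ∧ v = w) := by
            rintro ⟨h5, rfl⟩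
            have h6 : i = j := by omega
            rw [h6] at h
            exact hno u h
          simp only [if_neg this]; exact h4.2
        · right; right; right
          refine ⟨h4.1, h4.2.1, ?_⟩
          simp only [if_neg hc]; exact h4.2.2

/-- A graph covered by an orientation of out-degree at most `a` has a `2a+1`-colouring. -/
theorem col_of_cover (A : V → V → Prop) (F : V → Finset V) (a : ℕ)
    (hF : ∀ v, (F v).card ≤ a) (hirr : ∀ v, ¬ A v v) :
    ∀ S : Finset V, (∀ u ∈ S, ∀ v ∈ S, A u v → v ∈ F u ∨ u ∈ F v) →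
      ∃ c : V → ℕ, (∀ v, c v < 2 * a + 1) ∧ ∀ u ∈ S, ∀ v ∈ S, A u v → c u ≠ c v := by
  intro S
  induction S using Finset.strongInduction with
  | H S ih =>
    intro hS
    rcases S.eq_empty_or_nonempty with rfl | hne
    · exact ⟨fun _ => 0, fun v => Nat.succ_pos _, by simp⟩
    -- a vertex of small degree
    obtain ⟨v, hv, hdv⟩ : ∃ v ∈ S, (S.filter (fun u => u ∈ F v ∨ v ∈ F u)).card ≤ 2 * a := by
      by_contra hcon
      push Not at hcon
      have h1 : ∑ v ∈ S, (2 * a + 1) ≤ ∑ v ∈ S, (S.filter (fun u => u ∈ F v ∨ v ∈ F u)).card :=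
        sum_le_sum (fun v hv => hcon v hv)
      have h2 : ∑ v ∈ S, (S.filter (fun u => u ∈ F v ∨ v ∈ F u)).card ≤
          ∑ v ∈ S, ((S.filter (fun u => u ∈ F v)).card + (S.filter (fun u => v ∈ F u)).card) := by
        apply sum_le_sum
        intro v _
        rw [filter_or]
        exact card_union_le _ _
      have h3 : ∑ v ∈ S, (S.filter (fun u => v ∈ F u)).card =
          ∑ u ∈ S, (S.filter (fun v => v ∈ F u)).card :=
        sum_card_bipartiteAbove_eq_sum_card_bipartiteBelow (fun v u => v ∈ F u)
      have h4 : ∑ v ∈ S, (S.filter (fun u => u ∈ F v)).card ≤ ∑ v ∈ S, a := by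
        apply sum_le_sum
        intro v _
        refine le_trans (card_le_card ?_) (hF v)
        intro x hx
        exact (mem_filter.1 hx).2
      rw [sum_add_distrib, h3] at h2
      rw [sum_const, smul_eq_mul] at h1 h4
      have h5 : 0 < S.card := hne.card_pos
      nlinarith
    obtain ⟨c, hc1, hc2⟩ := ih (S.erase v) (erase_ssubset hv)
      (fun u hu w hw => hS u (mem_of_mem_erase hu) w (mem_of_mem_erase hw))
    have : ∃ n ∈ range (2 * a + 1), n ∉ (S.filter (fun u => u ∈ F v ∨ v ∈ F u)).image c := by
      by_contra hcon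
      push Not at hcon
      have h3 : range (2 * a + 1) ⊆ (S.filter (fun u => u ∈ F v ∨ v ∈ F u)).image c :=
        fun n hn => hcon n hn
      have h4 := card_le_card h3
      rw [card_range] at h4
      have := card_image_le (s := S.filter (fun u => u ∈ F v ∨ v ∈ F u)) (f := c)
      omega
    obtain ⟨n, hn, hn'⟩ := this
    refine ⟨Function.update c v n, ?_, ?_⟩
    · intro x
      by_cases hx : x = v
      · subst hx; rw [Function.update_self]; exact mem_range.1 hn
      · rw [Function.update_of_ne hx]; exact hc1 x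
    · intro x hx y hy hxy
      by_cases h1 : x = v
      · by_cases h2 : y = v
        · subst h1; subst h2; exact absurd hxy (hirr _)
        · rw [h1, Function.update_self, Function.update_of_ne h2]
          rw [h1] at hxy
          intro h3
          apply hn'
          refine mem_image.2 ⟨y, mem_filter.2 ⟨hy, ?_⟩, h3.symm⟩
          exact hS v hv y hy hxy
      · by_cases h2 : y = v
        · rw [h2, Function.update_self, Function.update_of_ne h1]
          rw [h2] at hxy
          intro h3
          apply hn'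
          refine mem_image.2 ⟨x, mem_filter.2 ⟨hx, ?_⟩, h3⟩
          exact (hS x hx v hv hxy).symm
        · rw [Function.update_of_ne h1, Function.update_of_ne h2]
          exact hc2 x (mem_erase.2 ⟨h1, hx⟩) y (mem_erase.2 ⟨h2, hy⟩) hxy

/-- A loopless relation without stuck system of arcs has an `r(4k-3)`-colouring. -/
theorem colouring (k r : ℕ) (hk : 1 ≤ k) (hr : 1 ≤ r) (R : V → V → Prop) (hirr : ∀ v, ¬ R v v)
    (hB : ∀ S : Finset (ℕ × V × V), (∀ i u v, (i, u, v) ∈ S → i < r ∧ R u v) →
      S.Nonempty → ¬ Stuck k r S) :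
    ∃ c : V → ℕ, (∀ v, c v < r * (4 * k - 3)) ∧ ∀ u v, R u v → c u ≠ c v := by
  obtain ⟨O, I, ρ, h1, h2, h3⟩ := elim k r
    ((range r ×ˢ (univ : Finset (V × V))).filter (fun x => R x.2.1 x.2.2)) (by
      intro S hS hne
      refine hB S ?_ hne
      intro i u v h
      have := mem_filter.1 (hS h)
      exact ⟨mem_range.1 (mem_product.1 this.1).1, this.2⟩)
  -- the class of a vertex
  have hcl : ∀ v, ∃ i, i < r ∧ (1 ≤ i → ρ i v = true) ∧ (i + 1 < r → ρ (i + 1) v = false) := by
    intro v
    by_contra hcon
    push Not at hcon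
    have : ∀ i, i < r → (1 ≤ i → ρ i v = true) := by
      intro i
      induction i with
      | zero => intro _ h; omega
      | succ i ih =>
        intro hi _
        have := hcon i (by omega) (ih (by omega))
        simpa using this.2
    have h := hcon (r - 1) (by omega) (this (r - 1) (by omega))
    omega
  choose cl hcl1 hcl2 hcl3 using hcl
  have hcol : ∀ i, ∃ c : V → ℕ, (∀ v, c v < 4 * k - 3) ∧
      ∀ u v, cl u = i → cl v = i → R u v → c u ≠ c v := by
    intro i
    obtain ⟨c, hc1, hc2⟩ := col_of_cover R (fun v => O i v ∪ I i v) (2 * (k - 1))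
      (by
        intro v
        refine le_trans (card_union_le _ _) ?_
        have := h1 i v
        have := h2 i v
        omega) hirr (univ.filter (fun v => cl v = i)) (by
        intro u hu v hv huv
        have hu' := (mem_filter.1 hu).2
        have hv' := (mem_filter.1 hv).2
        have hir : i < r := by rw [← hu']; exact hcl1 u
        rcases h3 i u v (by simp [huv, hir]) with h4 | h4 | h4 | h4
        · left; exact mem_union_left _ h4
        · right; exact mem_union_right _ h4
        · exfalso
          have := hcl3 v (by rw [hv']; exact h4.1)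
          rw [hv', h4.2] at this
          exact absurd this (by simp)
        · exfalso
          have := hcl2 u (by rw [hu']; exact h4.1)
          rw [hu', h4.2.2] at this
          exact absurd this (by simp))
    refine ⟨c, fun v => by have := hc1 v; omega, ?_⟩
    intro u v hu hv huv
    exact hc2 u (by simp [hu]) v (by simp [hv]) huv
  choose c hc1 hc2 using hcol
  refine ⟨fun v => cl v * (4 * k - 3) + c (cl v) v, ?_, ?_⟩
  · intro v
    have h4 := hc1 (cl v) v
    have h5 := hcl1 v
    calc cl v * (4 * k - 3) + c (cl v) v < cl v * (4 * k - 3) + (4 * k - 3) := by omega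
      _ = (cl v + 1) * (4 * k - 3) := by ring
      _ ≤ r * (4 * k - 3) := Nat.mul_le_mul_right _ h5
  · intro u v huv heq
    have h4 := hc1 (cl u) u
    have h5 := hc1 (cl v) v
    have h6 : cl u = cl v := by
      have e1 : (cl u * (4 * k - 3) + c (cl u) u) / (4 * k - 3) = cl u := by
        rw [mul_comm, Nat.mul_add_div (by omega), Nat.div_eq_of_lt h4, add_zero]
      have e2 : (cl v * (4 * k - 3) + c (cl v) v) / (4 * k - 3) = cl v := by
        rw [mul_comm, Nat.mul_add_div (by omega), Nat.div_eq_of_lt h5, add_zero]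
      rw [← e1, ← e2]
      simp only at heq
      rw [heq]
    refine hc2 (cl u) u v rfl h6.symm huv ?_
    simp only at heq
    rw [← h6] at heq
    omega

end Pool.Helper1.Layered
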